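import Mathlib

/-!
A graph on four vertices whose unit bar visibility number exceeds the star value.
-/

namespace Pool.Agent.Results.MP_aa954a_co.CompleteFour

/-- A bar, coded by the pair (left end, height): the closed horizontal segment of length one. -/
def seg (b : ℝ × ℝ) : Set (ℝ × ℝ) := Set.Icc b.1 (b.1 + 1) ×ˢ {b.2}

/-- The bars b and c see each other among the bars in S: some non-degenerate axis-parallel
rectangle has its bottom side in one of them and its top side in the other, and meets no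
other bar of S. -/
def Sees (S : Set (ℝ × ℝ)) (b c : ℝ × ℝ) : Prop :=
  ∃ x₁ x₂ y₁ y₂ : ℝ, x₁ < x₂ ∧ y₁ < y₂ ∧
    ((Set.Icc x₁ x₂ ×ˢ {y₁} ⊆ seg b ∧ Set.Icc x₁ x₂ ×ˢ {y₂} ⊆ seg c) ∨
      (Set.Icc x₁ x₂ ×ˢ {y₁} ⊆ seg c ∧ Set.Icc x₁ x₂ ×ˢ {y₂} ⊆ seg b)) ∧
    ∀ d ∈ S, d ≠ b → d ≠ c → Disjoint (Set.Icc x₁ x₂ ×ˢ Set.Icc y₁ y₂) (seg d)

/-- A t-unit-bar visibility representation of G: every vertex gets a finite set of at most
t bars, all bars used are pairwise disjoint, and distinct vertices are adjacent exactly when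
some bar of one sees some bar of the other. -/
structure IsUnitBarRep {V : Type*} (G : SimpleGraph V) (t : ℕ) (B : V → Finset (ℝ × ℝ)) :
    Prop where
  card_le : ∀ v, (B v).card ≤ t
  disj : ∀ v w, ∀ b ∈ B v, ∀ c ∈ B w, (v ≠ w ∨ b ≠ c) → Disjoint (seg b) (seg c)
  adj_iff : ∀ v w, v ≠ w →
    (G.Adj v w ↔ ∃ b ∈ B v, ∃ c ∈ B w, Sees {d | ∃ u, d ∈ B u} b c)

lemma sees_lt {S : Set (ℝ × ℝ)} {b c : ℝ × ℝ} (h : Sees S b c) (hbc : b.2 < c.2) :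
    ∃ x : ℝ, b.1 ≤ x ∧ x ≤ b.1 + 1 ∧ c.1 ≤ x ∧ x ≤ c.1 + 1 ∧
      ∀ d ∈ S, b.2 < d.2 → d.2 < c.2 → x < d.1 ∨ d.1 + 1 < x := by
  obtain ⟨x₁, x₂, y₁, y₂, hx, hy, hside, hfree⟩ := h
  have key : Set.Icc x₁ x₂ ×ˢ {y₁} ⊆ seg b ∧ Set.Icc x₁ x₂ ×ˢ {y₂} ⊆ seg c := by
    rcases hside with h | h
    · exact h
    · exfalso
      have h1 : ((x₁, y₁) : ℝ × ℝ) ∈ seg c := h.1 ⟨⟨le_refl _, hx.le⟩, rfl⟩
      have h2 : ((x₁, y₂) : ℝ × ℝ) ∈ seg b := h.2 ⟨⟨le_refl _, hx.le⟩, rfl⟩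
      have e1 : y₁ = c.2 := h1.2
      have e2 : y₂ = b.2 := h2.2
      linarith
  have hb : ((x₁, y₁) : ℝ × ℝ) ∈ seg b := key.1 ⟨⟨le_refl _, hx.le⟩, rfl⟩
  have hc : ((x₁, y₂) : ℝ × ℝ) ∈ seg c := key.2 ⟨⟨le_refl _, hx.le⟩, rfl⟩
  have e1 : y₁ = b.2 := hb.2
  have e2 : y₂ = c.2 := hc.2
  have b1 : b.1 ≤ x₁ := hb.1.1
  have b2 : x₁ ≤ b.1 + 1 := hb.1.2
  have c1 : c.1 ≤ x₁ := hc.1.1
  have c2 : x₁ ≤ c.1 + 1 := hc.1.2
  refine ⟨x₁, b1, b2, c1, c2, ?_⟩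
  intro d hd hbd hdc
  by_contra hcon
  push Not at hcon
  have hdb : d ≠ b := by
    rintro rfl
    exact lt_irrefl _ hbd
  have hdc' : d ≠ c := by
    rintro rfl
    exact lt_irrefl _ hdc
  have hdis := hfree d hd hdb hdc'
  have m1 : ((x₁, d.2) : ℝ × ℝ) ∈ Set.Icc x₁ x₂ ×ˢ Set.Icc y₁ y₂ :=
    ⟨⟨le_refl _, hx.le⟩, ⟨by rw [e1]; exact hbd.le, by rw [e2]; exact hdc.le⟩⟩
  have m2 : ((x₁, d.2) : ℝ × ℝ) ∈ seg d := ⟨⟨hcon.1, hcon.2⟩, rfl⟩
  exact Set.disjoint_left.mp hdis m1 m2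

lemma sees_symm {S : Set (ℝ × ℝ)} {b c : ℝ × ℝ} (h : Sees S b c) : Sees S c b := by
  obtain ⟨x₁, x₂, y₁, y₂, hx, hy, hside, hfree⟩ := h
  exact ⟨x₁, x₂, y₁, y₂, hx, hy, hside.symm, fun d hd h1 h2 => hfree d hd h2 h1⟩

lemma sees_ne {S : Set (ℝ × ℝ)} {b c : ℝ × ℝ} (h : Sees S b c) : b.2 ≠ c.2 := by
  obtain ⟨x₁, x₂, y₁, y₂, hx, hy, hside, -⟩ := h
  rcases hside with h | h
  · have h1 : ((x₁, y₁) : ℝ × ℝ) ∈ seg b := h.1 ⟨⟨le_refl _, hx.le⟩, rfl⟩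
    have h2 : ((x₁, y₂) : ℝ × ℝ) ∈ seg c := h.2 ⟨⟨le_refl _, hx.le⟩, rfl⟩
    have e1 : y₁ = b.2 := h1.2
    have e2 : y₂ = c.2 := h2.2
    intro h3
    linarith
  · have h1 : ((x₁, y₁) : ℝ × ℝ) ∈ seg c := h.1 ⟨⟨le_refl _, hx.le⟩, rfl⟩
    have h2 : ((x₁, y₂) : ℝ × ℝ) ∈ seg b := h.2 ⟨⟨le_refl _, hx.le⟩, rfl⟩
    have e1 : y₁ = c.2 := h1.2
    have e2 : y₂ = b.2 := h2.2
    intro h3
    linarith

/-- Four unit bars at increasing heights never see each other pairwise. -/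
lemma four_sorted {S : Set (ℝ × ℝ)} (p : Fin 4 → ℝ × ℝ) (hS : ∀ i, p i ∈ S)
    (hmono : StrictMono fun i => (p i).2) (hsee : ∀ i j, i ≠ j → Sees S (p i) (p j)) :
    False := by
  have h01 : (p 0).2 < (p 1).2 := hmono (by decide)
  have h12 : (p 1).2 < (p 2).2 := hmono (by decide)
  have h23 : (p 2).2 < (p 3).2 := hmono (by decide)
  obtain ⟨x, hx0, hx0', hx3, hx3', hxf⟩ :=
    sees_lt (hsee 0 3 (by decide)) (by linarith : (p 0).2 < (p 3).2)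
  obtain ⟨y, hy1, hy1', hy2, hy2', -⟩ := sees_lt (hsee 1 2 (by decide)) h12
  obtain ⟨z, hz0, hz0', hz2, hz2', hzf⟩ :=
    sees_lt (hsee 0 2 (by decide)) (by linarith : (p 0).2 < (p 2).2)
  obtain ⟨w, hw1, hw1', hw3, hw3', hwf⟩ :=
    sees_lt (hsee 1 3 (by decide)) (by linarith : (p 1).2 < (p 3).2)
  have x1 := hxf (p 1) (hS 1) h01 (by linarith)
  have x2 := hxf (p 2) (hS 2) (by linarith) h23
  have z1 := hzf (p 1) (hS 1) h01 h12
  have w2 := hwf (p 2) (hS 2) h12 h23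
  rcases x1 with x1 | x1 <;> rcases x2 with x2 | x2 <;> rcases z1 with z1 | z1 <;>
    rcases w2 with w2 | w2 <;> linarith

theorem no_rep_one (B : Fin 4 → Finset (ℝ × ℝ)) :
    ¬ IsUnitBarRep (⊤ : SimpleGraph (Fin 4)) 1 B := by
  intro h
  have hex : ∀ v : Fin 4, ∃ b, b ∈ B v := by
    intro v
    have hne : v ≠ v + 1 := by revert v; decide
    obtain ⟨b, hb, -⟩ := (h.adj_iff v (v + 1) hne).mp (by simp)
    exact ⟨b, hb⟩
  choose q hq using hex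
  have huniq : ∀ v, ∀ b ∈ B v, b = q v := fun v b hb =>
    Finset.card_le_one.mp (h.card_le v) b hb (q v) (hq v)
  have hsee : ∀ v w, v ≠ w → Sees {d | ∃ u, d ∈ B u} (q v) (q w) := by
    intro v w hvw
    obtain ⟨b, hb, c, hc, hs⟩ := (h.adj_iff v w hvw).mp (by simpa using hvw)
    rw [huniq v b hb, huniq w c hc] at hs
    exact hs
  have hinj : Function.Injective fun i => (q i).2 := by
    intro i j hij
    by_contra hne
    exact sees_ne (hsee i j hne) hij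
  let σ := Tuple.sort fun i => (q i).2
  have hmono : Monotone ((fun i => (q i).2) ∘ σ) := Tuple.monotone_sort _
  have hstrict : StrictMono fun i => (q (σ i)).2 :=
    hmono.strictMono_of_injective (hinj.comp σ.injective)
  exact four_sorted (S := {d | ∃ u, d ∈ B u}) (fun i => q (σ i))
    (fun i => (⟨σ i, hq (σ i)⟩ : ∃ u, q (σ i) ∈ B u)) hstrict
    (fun i j hij => hsee _ _ (fun e => hij (σ.injective e)))

/-- Heights of the eight bars of a representation of the complete graph on four vertices. -/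
def ht : Fin 4 → Fin 2 → ℕ := ![![1, 7], ![2, 5], ![3, 8], ![4, 6]]

/-- The bars of a representation of the complete graph on four vertices. -/
noncomputable def barsK4 (v : Fin 4) : Finset (ℝ × ℝ) :=
  Finset.univ.image fun i : Fin 2 => ((0 : ℝ), (ht v i : ℝ))

lemma ht_inj : ∀ v w : Fin 4, ∀ i j : Fin 2, ht v i = ht w j → v = w ∧ i = j := by decide

lemma ht_succ : ∀ v w : Fin 4, v ≠ w →
    ∃ i j : Fin 2, ht w j = ht v i + 1 ∨ ht v i = ht w j + 1 := by decide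

lemma mem_barsK4 {v : Fin 4} {b : ℝ × ℝ} (hb : b ∈ barsK4 v) :
    ∃ i : Fin 2, b = ((0 : ℝ), (ht v i : ℝ)) := by
  obtain ⟨i, -, hi⟩ := Finset.mem_image.mp hb
  exact ⟨i, hi.symm⟩

lemma disjoint_seg {b c : ℝ × ℝ} (h : b.2 ≠ c.2) : Disjoint (seg b) (seg c) := by
  rw [Set.disjoint_left]
  intro p hp hp'
  have e1 : p.2 = b.2 := hp.2
  have e2 : p.2 = c.2 := hp'.2
  exact h (e1.symm.trans e2)

lemma sees_succ {v w : Fin 4} {i j : Fin 2} (h : ht w j = ht v i + 1) :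
    Sees {d | ∃ u, d ∈ barsK4 u} ((0 : ℝ), (ht v i : ℝ)) ((0 : ℝ), (ht w j : ℝ)) := by
  have hR : ((ht w j : ℕ) : ℝ) = (ht v i : ℝ) + 1 := by rw [h]; push_cast; ring
  refine ⟨0, 1, (ht v i : ℝ), (ht w j : ℝ), one_pos, by rw [hR]; linarith,
    Or.inl ⟨?_, ?_⟩, ?_⟩
  · rintro p ⟨hp1, hp2⟩
    exact ⟨⟨hp1.1, by simpa using hp1.2⟩, hp2⟩
  · rintro p ⟨hp1, hp2⟩
    exact ⟨⟨hp1.1, by simpa using hp1.2⟩, hp2⟩
  · rintro d ⟨u, hu⟩ hdb hdc
    obtain ⟨k, rfl⟩ := mem_barsK4 hu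
    have n1 : ht u k ≠ ht v i := by
      intro e
      exact hdb (by rw [e])
    have n2 : ht u k ≠ ht w j := by
      intro e
      exact hdc (by rw [e])
    rw [Set.disjoint_left]
    rintro p ⟨-, hp2⟩ ⟨-, hp3⟩
    have e : p.2 = (ht u k : ℝ) := hp3
    have l1 : (ht v i : ℝ) ≤ (ht u k : ℝ) := by rw [← e]; exact hp2.1
    have l2 : (ht u k : ℝ) ≤ (ht w j : ℝ) := by rw [← e]; exact hp2.2
    have m1 : ht v i ≤ ht u k := by exact_mod_cast l1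
    have m2 : ht u k ≤ ht w j := by exact_mod_cast l2
    omega

theorem rep_two : IsUnitBarRep (⊤ : SimpleGraph (Fin 4)) 2 barsK4 := by
  refine ⟨?_, ?_, ?_⟩
  · intro v
    refine Finset.card_image_le.trans ?_
    simp
  · intro v w b hb c hc hvw
    obtain ⟨i, rfl⟩ := mem_barsK4 hb
    obtain ⟨j, rfl⟩ := mem_barsK4 hc
    refine disjoint_seg ?_
    intro e
    have e1 : (ht v i : ℝ) = (ht w j : ℝ) := e
    have e' : ht v i = ht w j := by exact_mod_cast e1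
    obtain ⟨rfl, rfl⟩ := ht_inj v w i j e'
    rcases hvw with h | h <;> exact h rfl
  · intro v w hvw
    refine ⟨fun _ => ?_, fun _ => by simpa using hvw⟩
    obtain ⟨i, j, h | h⟩ := ht_succ v w hvw
    · exact ⟨_, Finset.mem_image_of_mem _ (Finset.mem_univ i), _,
        Finset.mem_image_of_mem _ (Finset.mem_univ j), sees_succ h⟩
    · exact ⟨_, Finset.mem_image_of_mem _ (Finset.mem_univ i), _,
        Finset.mem_image_of_mem _ (Finset.mem_univ j), sees_symm (sees_succ h)⟩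

/-- The complete graph on n = 4 vertices has no unit bar visibility representation with at most
⌈(n - 1) / 3⌉ = 1 bars per vertex, and it has one with at most 2 bars per vertex; so its unit
bar visibility number is 2, which exceeds ⌈(n - 1) / 3⌉. -/
theorem result :
    (∀ B : Fin 4 → Finset (ℝ × ℝ),
      ¬ IsUnitBarRep (⊤ : SimpleGraph (Fin 4)) ⌈(((4 : ℕ) : ℚ) - 1) / 3⌉₊ B) ∧
    ∃ B : Fin 4 → Finset (ℝ × ℝ), IsUnitBarRep (⊤ : SimpleGraph (Fin 4)) 2 B := by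
  refine ⟨fun B => ?_, _, rep_two⟩
  have h : ⌈(((4 : ℕ) : ℚ) - 1) / 3⌉₊ = 1 := by norm_num
  rw [h]
  exact no_rep_one B

end Pool.Agent.Results.MP_aa954a_co.CompleteFour
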